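import Pool.Agent.Work.MP_27e890_gt.Main

/-!
A zero-dimensional separable metrizable space (constructed in ZFC) that is the union of two
homogeneous subspaces but is not a countable union of closed homogeneous subspaces.
-/

open Set Filter Topology

namespace Pool.Agent.Results.MP_27e890_gt.NoClosedWitnesses

/-- A space is homogeneous if any point can be moved to any other point by a self-homeomorphism. -/
def Homogeneous (X : Type) [TopologicalSpace X] : Prop :=
  ∀ x y : X, ∃ h : X ≃ₜ X, h x = y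

/-- `X` is a countable union of homogeneous subspaces. -/
def SigmaHomogeneous (X : Type) [TopologicalSpace X] : Prop :=
  ∃ S : ℕ → Set X, (∀ n, Homogeneous (S n)) ∧ (⋃ n, S n) = Set.univ

/-- `X` is a countable union of closed homogeneous subspaces. -/
def SigmaHomogeneousClosed (X : Type) [TopologicalSpace X] : Prop :=
  ∃ S : ℕ → Set X, (∀ n, IsClosed (S n) ∧ Homogeneous (S n)) ∧ (⋃ n, S n) = Set.univ

/-- `X` is a zero-dimensional separable metrizable space: nonempty, separable, metrizable, and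
its clopen sets form a base. -/
def ZeroDimSepMetrizable (X : Type) [TopologicalSpace X] : Prop :=
  Nonempty X ∧ TopologicalSpace.SeparableSpace X ∧ TopologicalSpace.MetrizableSpace X ∧
    TopologicalSpace.IsTopologicalBasis {s : Set X | IsClopen s}

open Pool.Agent.Work.MP_27e890_gt

lemma homogeneous_of_translation {X : Set V} (T : Set V) (hTX : T ⊆ X)
    (hT : ∀ a ∈ T, ∀ b ∈ T, ∀ c ∈ T, c + (b - a) ∈ T) :
    Homogeneous ({x : X | (x : V) ∈ T} : Set X) := by
  intro x y
  have hx : (x.1 : V) ∈ T := x.2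
  have hy : (y.1 : V) ∈ T := y.2
  refine ⟨⟨⟨fun t => ⟨⟨(t.1 : V) + ((y.1 : V) - (x.1 : V)), hTX (hT _ hx _ hy _ t.2)⟩,
      hT _ hx _ hy _ t.2⟩,
    fun t => ⟨⟨(t.1 : V) + ((x.1 : V) - (y.1 : V)), hTX (hT _ hy _ hx _ t.2)⟩,
      hT _ hy _ hx _ t.2⟩, ?_, ?_⟩, ?_, ?_⟩, ?_⟩
  · intro t
    apply Subtype.ext
    apply Subtype.ext
    show (t.1 : V) + ((y.1 : V) - (x.1 : V)) + ((x.1 : V) - (y.1 : V)) = t.1
    abel
  · intro t
    apply Subtype.ext
    apply Subtype.ext
    show (t.1 : V) + ((x.1 : V) - (y.1 : V)) + ((y.1 : V) - (x.1 : V)) = t.1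
    abel
  · have : Continuous fun t : ({x : X | (x : V) ∈ T} : Set X) =>
        (t.1 : V) + ((y.1 : V) - (x.1 : V)) :=
      (continuous_add_const ((y.1 : V) - (x.1 : V))).comp
        (continuous_subtype_val.comp continuous_subtype_val)
    exact (this.subtype_mk _).subtype_mk _
  · have : Continuous fun t : ({x : X | (x : V) ∈ T} : Set X) =>
        (t.1 : V) + ((x.1 : V) - (y.1 : V)) :=
      (continuous_add_const ((x.1 : V) - (y.1 : V))).comp
        (continuous_subtype_val.comp continuous_subtype_val)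
    exact (this.subtype_mk _).subtype_mk _
  · apply Subtype.ext
    apply Subtype.ext
    show (x.1 : V) + ((y.1 : V) - (x.1 : V)) = y.1
    abel

/-- There is a zero-dimensional separable metrizable space that is sigma-homogeneous but not
sigma-homogeneous with closed witnesses. -/
theorem result : ∃ (X : Type) (_ : TopologicalSpace X),
    ZeroDimSepMetrizable X ∧ SigmaHomogeneous X ∧ ¬ SigmaHomogeneousClosed X := by
  obtain ⟨H, h1, h2, h3⟩ := exists_H
  refine ⟨XX H, inferInstance, ⟨?_, ?_, ?_, ?_⟩, ?_, ?_⟩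
  · exact ⟨⟨0, Or.inl H.zero_mem⟩⟩
  · infer_instance
  · infer_instance
  · apply TopologicalSpace.isTopologicalBasis_of_isOpen_of_nhds
    · intro u hu
      exact hu.isOpen
    · intro a u ha hu
      rw [isOpen_induced_iff] at hu
      obtain ⟨O, hO, rfl⟩ := hu
      obtain ⟨n, hn⟩ := exists_cyl_subset (hO.mem_nhds (show (a : V) ∈ O from ha))
      refine ⟨Subtype.val ⁻¹' (cyl (a : V) n), ?_, mem_cyl_self _ _, fun b hb => hn hb⟩
      exact ⟨(isClosed_cyl _ _).preimage continuous_subtype_val,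
        (isOpen_cyl _ _).preimage continuous_subtype_val⟩
  · -- two homogeneous pieces
    refine ⟨fun n => Nat.casesOn n {x | (x : V) ∈ (H : Set V)}
      (fun _ => {x | (x : V) ∈ {v : V | v - z ∈ D0}}), ?_, ?_⟩
    · intro n
      cases n with
      | zero =>
        apply homogeneous_of_translation (X := XX H) (H : Set V) (fun v hv => Or.inl hv)
        intro a ha b hb c hc
        exact H.add_mem hc (H.sub_mem hb ha)
      | succ n =>
        apply homogeneous_of_translation (X := XX H) {v : V | v - z ∈ D0} (fun v hv => Or.inr hv)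
        intro a ha b hb c hc
        show c + (b - a) - z ∈ D0
        have h4 : c + (b - a) - z = (c - z) + ((b - z) - (a - z)) := by abel
        rw [h4]
        exact D0.add_mem hc (D0.sub_mem hb ha)
    · ext x
      simp only [Set.mem_iUnion, Set.mem_univ, iff_true]
      rcases x.2 with hx | hx
      · exact ⟨0, hx⟩
      · exact ⟨1, hx⟩
  · -- no closed witnesses
    rintro ⟨S, hS, hcov⟩
    have hK : ∀ n, ∃ K : Set V, IsClosed K ∧ (Subtype.val ⁻¹' K : Set (XX H)) = S n := fun n =>
      isClosed_induced_iff.mp (hS n).1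
    choose K hKc hKS using hK
    have hcov' : XX H ⊆ ⋃ n, K n := by
      intro v hv
      have : (⟨v, hv⟩ : XX H) ∈ ⋃ n, S n := by rw [hcov]; trivial
      obtain ⟨n, hn⟩ := Set.mem_iUnion.mp this
      rw [← hKS n] at hn
      exact Set.mem_iUnion.mpr ⟨n, hn⟩
    obtain ⟨n, hn⟩ := exists_open_piece h2 K hKc hcov'
    set O := interior (K n) with hO
    -- two different points of the open piece
    obtain ⟨a, ha⟩ := hn
    obtain ⟨m, hm⟩ := exists_cyl_subset (isOpen_interior.mem_nhds ha)
    obtain ⟨x, hxH, hxc, -⟩ := exists_mem_cyl h2 a m (B := ∅) Set.countable_empty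
    obtain ⟨y, hyH, hyc, hyx⟩ := exists_mem_cyl h2 a m (B := {x}) (Set.countable_singleton x)
    have hxX : x ∈ XX H := Or.inl hxH
    have hyX : y ∈ XX H := Or.inl hyH
    have hOS : ∀ u (hu : u ∈ XX H), u ∈ O → (⟨u, hu⟩ : XX H) ∈ S n := by
      intro u hu huO
      rw [← hKS n]
      show u ∈ K n
      exact interior_subset huO
    obtain ⟨h, hh⟩ := (hS n).2 ⟨⟨x, hxX⟩, hOS x hxX (hm hxc)⟩ ⟨⟨y, hyX⟩, hOS y hyX (hm hyc)⟩
    classical
    let f : V → V := fun u =>
      if hu : ∃ hX : u ∈ XX H, (⟨u, hX⟩ : XX H) ∈ S n then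
        ((h ⟨⟨u, hu.1⟩, hu.2⟩ : S n).1 : V) else 0
    have hfval : ∀ u (hX : u ∈ XX H) (hS : (⟨u, hX⟩ : XX H) ∈ S n),
        f u = ((h ⟨⟨u, hX⟩, hS⟩ : S n).1 : V) := fun u hX hS => dif_pos ⟨hX, hS⟩
    have hid := rigidity h1 h2 h3 (O := O) isOpen_interior (f := f) ?_ ?_ ?_ x ⟨hm hxc, hxX⟩
    · rw [hfval x hxX (hOS x hxX (hm hxc)), hh] at hid
      exact hyx hid
    · -- continuity
      rw [continuousOn_iff_continuous_domRestrict]
      have hc : Continuous fun u : (O ∩ XX H : Set V) =>
          ((h ⟨⟨u.1, u.2.2⟩, hOS u.1 u.2.2 u.2.1⟩ : S n).1 : V) := by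
        apply continuous_subtype_val.comp
        apply continuous_subtype_val.comp
        apply h.continuous.comp
        exact (continuous_subtype_val.subtype_mk _).subtype_mk _
      refine hc.congr fun u => ?_
      exact (hfval u.1 u.2.2 (hOS u.1 u.2.2 u.2.1)).symm
    · intro u hu v hv huv
      rw [hfval u hu.2 (hOS u hu.2 hu.1), hfval v hv.2 (hOS v hv.2 hv.1)] at huv
      have h5 := h.injective (Subtype.ext (Subtype.ext huv))
      exact congrArg (fun t : S n => ((t.1 : XX H) : V)) h5
    · intro u hu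
      rw [hfval u hu.2 (hOS u hu.2 hu.1)]
      exact (h ⟨⟨u, hu.2⟩, hOS u hu.2 hu.1⟩ : S n).1.2

end Pool.Agent.Results.MP_27e890_gt.NoClosedWitnesses
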